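import Pool.Agent.N204.GT.Fin

/-!
# The generalized Tate conjecture over finite fields for products with powers: bounded generation

Let `X` and `Z` be arbitrary smooth projective varieties over an algebraic closure of the field with `p`
elements. Let `b` be the total Betti number of `X`, let `e` be the dimension of `Z`, and let `D` be a
common denominator of the slopes of `X` (for example `D = (Φ.e X) b!`). Put
`N = maxPower W Z X D = D (b (b + 3) (b + 1)! (2 D b) ^ b (2 e + 2 D b ^ 2) + b)`.

Theorem. (1) Let `n + 1 > N`. Every Frobenius stable subspace `V` of `H^i(Z × X ^ (n + 1))` such that
`V(c)` is effective is contained in the span of exterior products of classes in Frobenius stable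
subspaces `V'` of `H^i'(Z × X ^ (n' + 1))` and `V''` of `H^i''(X ^ (n'' + 1))` with `V'(c')` and `V''(c'')`
effective, where `n' + 1` and `n'' + 1` are the sizes of the two parts of a partition of the set of the
factors `X` into two nonempty parts, `i' + i'' = i` and `c' + c'' = c`.

(2) If the generalized Tate conjecture holds for the single variety `Z × X ^ N`, then it holds for
`Z × X ^ n` for all `n`, and for all varieties which are dominated by these varieties (for example for
the products of `Z` and of arbitrary powers of the varieties `X_i`, if `X` is the product of the
`X_i`).

(3) There are finitely many abelian varieties `A` such that the Tate conjecture and the semisimplicity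
of Frobenius for the varieties `A ^ m × Z × X ^ N`, `1 ≤ m ≤ 2 dim (Z × X ^ N) + 1`, imply the generalized
Tate conjecture for all these (infinitely many) varieties. (Here the theorem of Honda and Tate is used.
It is known that the Tate conjecture for all varieties implies the generalized Tate conjecture for
all varieties.)

The proof. Over an algebraic closure of the coefficient field the cohomology of `X` has a basis of
generalised eigenvectors of Frobenius. For a monomial in this basis, times a generalised eigenvector in
the cohomology of `Z`, the condition that the twist is effective is a system of linear inequalities in
the exponents of the monomial, one for each `p`-adic place of the field generated by the eigenvalues; the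
slopes are multiples of `1 / D`. A solution of such a system which is long, in terms of the number of
unknowns and of the coefficients, but not in terms of the number of the inequalities, contains a short
integral vector in the cone of the solutions of the homogeneous system (the extreme rays are given by
minors). So the monomial splits, and the factors lie in effective twists of subspaces which are
defined over the coefficient field. Exterior products are compatible with the coniveau filtration
(no moving lemma is needed). For (3) one writes a Weil number of weight `w` as the `w`-th power of a
Weil number of weight one.

Over a finite field, effective means entire (the conjugate of a Frobenius eigenvalue `α` of weight `w` is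
`q ^ w / α`), and both coniveau filtrations do not change if the finite field is extended; so here
they are defined over the algebraic closure.
-/

set_option autoImplicit false

open CategoryTheory AlgebraicGeometry

universe u v

namespace Pool.Agent.Results.MP_8abef2_ag.BoundedGeneration

open Pool.Agent.H914 Pool.Agent.H914.VarClass Pool.Agent.H914.VarClass.Obj
  Pool.Agent.H914.WeilCohomology Pool.Agent.W534 Pool.Agent.R940 Pool.Agent.N204.GT
open Pool.Agent.Y163 (pw)

/-- Bounded generation of the effective twists of Frobenius stable subspaces, reduction of the
generalized Tate conjecture for the products `Z × X ^ (n + 1)` to the case of `N` factors, and its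
reduction to the Tate conjecture and semisimplicity for finitely many varieties. -/
theorem result {k : Type u} [Field k] {𝒱 : VarClass k} {ops : CycleOps 𝒱}
    {W : WeilCohomology.{u, v} ops} {p : ℕ} [Fact p.Prime] (Φ : FrobSystem W p) (σ : W.K →+* ℂ)
    (hW : ∀ Y, WeilConjectures Φ σ Y) (X Z : 𝒱.Obj) (hX : HasBigDivisor ops X)
    (hZ : HasBigDivisor ops Z) :
    IsSlopeDenominator Φ σ X (Φ.e X * (Module.finrank W.K (W.H X)).factorial) ∧
    ∀ D, IsSlopeDenominator Φ σ X D →
      (∀ n, maxPower W Z X D < n + 1 → NoNewEffective Φ Z X n) ∧
      (GTC Φ (Z.prod (pw X (maxPower W Z X D - 1))) → GTCForAllPowers Φ Z X) ∧
      (CyclesHaveConiveau W → ∀ 𝒜, HondaTate Φ 𝒜 → ∃ 𝓕 : Set 𝒱.Obj, 𝓕 ⊆ 𝒜 ∧ 𝓕.Finite ∧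
        (TateWith Φ 𝓕 (Z.prod (pw X (maxPower W Z X D - 1))) → GTCForAllPowers Φ Z X)) :=
  ⟨slopeDenominator (hW X).1 (hW X).2, fun D hD => main hW hX hZ hD⟩

end Pool.Agent.Results.MP_8abef2_ag.BoundedGeneration
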