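import Mathlib
import Pool.Agent.N178.GT.Final

/-!
# The generalized Tate conjecture for abelian varieties with independent complex multiplications

Let `T k` be finitely many CM types (a CM field `E k` and a CM type `Φ k`), divided into independent
blocks (`IsIndependent`: the composita of the Galois closures of the CM fields of the different
blocks are linearly disjoint over `ℚ`), such that for each block

* all CM types of the CM fields of the block are conjugate (for instance: one CM field of degree
  `2 g` whose Galois closure has degree `2 ^ g * m`, with the full group of sign changes), or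
* the total dimension of the block is at most three, or
* the block consists of all CM types of a Galois CM field `L`.

Let `X` be an abelian variety (up to isogeny) which is a product of abelian varieties with CM types
`T k`, with arbitrary multiplicities: over a number field over which the complex multiplication is
defined, with good reduction at a place above a prime number which splits completely in the CM fields;
or `X` is the canonical lift of an ordinary abelian variety over a finite field. The Frobenius element
acts on the rational Tate module `V = V_ℓ(X)` as the multiplication by an element `π` of the product of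
the CM fields, with absolute values given by the formula of Shimura and Taniyama.

The theorem: the generalized Tate conjecture holds for `X` in all degrees `i = n + 2 ν` and for all
levels: let `U` be a space of classes in `H^i(X, ℚ_ℓ)` (alternating forms on `V`) whose twist `U(ν)`
is effective of weight `n`, at the given place: all eigenvalues `β` of the Frobenius element on `U`
have the property that `β / q ^ ν` and `q ^ i / (q ^ ν * β)` are algebraic integers. Then the elements
of `U` are linear combinations, with coefficients in `ℚ_ℓ`, of the images of elements of `H_n(Y, ℚ)`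
under correspondences in the system of classes `𝒜` on `Y × X` of degree `2 (n + ν)`, for abelian
varieties `Y`. If `𝒜` consists of algebraic classes then these images have geometric coniveau at
least `ν`, since `H_n(Y, ℚ)` comes from a subvariety of `Y` of dimension `n` (Lefschetz); for ordinary
abelian varieties over finite fields one reduces the algebraic classes on the canonical lifts.

A system of classes (`Sys`) contains the Hodge classes of degree two and the Weil classes on abelian
fourfolds and on abelian sixfolds of split Weil type, and is stable under cup products, pull-backs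
and push-forwards. By the theorems of Lefschetz and Markman, the algebraic classes are such a system,
and all classes in the smallest system `algSys` are algebraic. The theorem holds for all systems `𝒜`
if there is no block of the third kind with a field of degree larger than six; for each block of this
kind the classes of degree four which belong to a frame with the field `L` have to be in `𝒜`
(`Frame.In`, from `Pool.Agent.N830.HC.Frame`); this is a consequence of the Hodge conjecture for
abelian varieties with complex multiplication by `L`.

The proof. Over an algebraic closure, `H^i(X, ℚ_ℓ)` is spanned by the monomials in the eigenvectors of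
the CM fields, and only those monomials occur in the elements of `U` whose Frobenius eigenvalue `β`
has the property above. Conjugating `β` by an automorphism `σ` of `ℂ` one sees that the sum of the
signs `±1` (`1` if `σ ∘ φ` belongs to the CM type) of the characters `φ` in the monomial lies between
`-n` and `n`, for all `σ`. The sums property of the family of CM types (proved for these blocks, if
necessary after adding elliptic curves) gives `n` characters with the same sums of signs for all `σ`:
the product of the monomial and of the conjugate characters is a Hodge class on `Y × X`, where `Y` is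
a product of `n` abelian varieties of CM types `T k`. These Hodge classes are in `𝒜`.
-/

namespace Pool.Agent.Results.MP_8abef2_ag.IndependentCMBlocks

open Module NumberField Polynomial Pool.Agent.Y90 Pool.Agent.R915
open Pool.Agent.H204R3.CM (IsHodge IsCMType)
open Pool.Agent.W547.KB (CMPair CMAV single)
open Pool.Agent.W547.LN (SameType)
open Pool.Agent.W530.NF (ShimuraTaniyama Comparison)
open Pool.Agent.N830.HC (Frame av)

/-- The subspace of `H^i(X, ℚ)` spanned by the classes `f` given by a class `τ` in the system `𝒜`, of
degree `n + i` on a product `P` of an abelian variety `Y` and `X` (with the inclusions `a`, `b`), and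
by elements `y 0, ..., y (n - 1)` of `H_1(Y, ℚ)`: the image of `y 0 ∧ ... ∧ y (n - 1) ∈ H_n(Y, ℚ)`
under the correspondence `τ`. -/
def correspondenceClasses (𝒜 : Sys) (X : AV) (n i : ℕ) :
    Submodule ℚ (X.H [⋀^Fin i]→ₗ[ℚ] ℚ) :=
  Submodule.span ℚ {f | ∃ (Y P : AV) (a : Y.H →ₗ[ℚ] P.H) (b : X.H →ₗ[ℚ] P.H)
    (τ : P.H [⋀^Fin n ⊕ Fin i]→ₗ[ℚ] ℚ) (y : Fin n → Y.H), IsHom Y P a ∧ IsHom X P b ∧
    Function.Bijective (fun w : Y.H × X.H => a w.1 + b w.2) ∧ 𝒜.A P (Fin n ⊕ Fin i) τ ∧
    ∀ x : Fin i → X.H, f x = τ (Sum.elim (fun k => a (y k)) fun l => b (x l))}

/-- The CM types of the CM fields in the block `B` are all conjugate, simultaneously: for each family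
of CM types `Ψ k` of the CM fields there is an automorphism of `ℂ` which takes `Ψ k` to the CM type
`T k`, for all `k` in `B`. -/
def AllConjugate {K : Type} (T : K → CMPair) (B : Set K) : Prop :=
  ∀ Ψ : ∀ k, Set ((T k).E →+* ℂ), (∀ k, IsCMType (Ψ k)) →
    ∃ σ : ℂ ≃+* ℂ, ∀ k ∈ B, ∀ φ, φ ∈ Ψ k ↔ (σ : ℂ →+* ℂ).comp φ ∈ (T k).Φ

/-- The CM fields of the block `B` are subfields of the Galois CM field `L`, and all CM types of `L`
occur. -/
def AllTypes {K : Type} (T : K → CMPair) (B : Set K) (L : Type) [Field L] [NumberField L]
    [IsCMField L] : Prop :=
  IsGalois ℚ L ∧ (∀ k ∈ B, Nonempty ((T k).E →+* L)) ∧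
    ∀ (Φ : Set (L →+* ℂ)) (hΦ : IsCMType Φ), ∃ k ∈ B, SameType ⟨L, Φ, hΦ⟩ (T k)

/-- The total dimension of the block is at most three. -/
def DimAtMostThree {K : Type} (T : K → CMPair) (B : Set K) : Prop :=
  ∃ F : Finset K, (∀ k, k ∈ F ↔ k ∈ B) ∧ ∑ k ∈ F, finrank ℚ (T k).E ≤ 6

/-- The blocks `{k | b k = j}` are independent: automorphisms of `ℂ` can be prescribed separately on
the complex embeddings of the CM fields of the different blocks. (The composita of the Galois
closures of the fields of the different blocks are linearly disjoint over `ℚ`.) -/
def IsIndependent {K J : Type} (T : K → CMPair) (b : K → J) : Prop :=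
  ∀ τ : J → (ℂ ≃+* ℂ), ∃ σ : ℂ ≃+* ℂ, ∀ k (φ : (T k).E →+* ℂ),
    (σ : ℂ →+* ℂ).comp φ = (τ (b k) : ℂ →+* ℂ).comp φ

/-- The condition on the block `B` in the theorem. -/
def IsGoodBlock {K : Type} (T : K → CMPair) (B : Set K) : Prop :=
  AllConjugate T B ∨ DimAtMostThree T B ∨
    ∃ (L : Type) (_ : Field L) (_ : NumberField L) (_ : IsCMField L), AllTypes T B L

/-- The Frobenius element `F` of a place with residue field of `q` elements: `F` acts on the rational
Tate module `V`, which is identified with `k ⊗ H_1(X, ℚ)` by the comparison `C` (`k = ℚ_ℓ`), as the
multiplication by the element `π` of the product of the CM fields. The absolute values are given by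
the formula of Shimura and Taniyama, for an absolute value `w` of `ℂ` (an extension of the `p`-adic
absolute value, by an isomorphism of `ℂ` with an algebraic closure of `ℚ_p`): `w (φ π) = w q` for `φ`
in the CM type, and `w (φ π) = 1` for the other complex embeddings `φ`. -/
structure IsFrobenius {X : CMAV} {k V : Type} [Field k] [AddCommGroup V] [Module k V]
    (C : Comparison X k V) (w : AbsoluteValue ℂ ℝ) (q : ℕ) (π : X.H1) (F : V →ₗ[k] V) : Prop where
  ne_zero : q ≠ 0
  lt_one : w q < 1
  shimuraTaniyama : ShimuraTaniyama X w q π
  apply_eq : ∀ x : X.H1, F (C.ι x) = C.ι (π * x)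

/-- The action `f ↦ f ∘ F` of the Frobenius element on the classes of degree `i`. -/
def frobeniusOnForms {k V : Type} [Field k] [AddCommGroup V] [Module k V] (F : V →ₗ[k] V) (i : ℕ) :
    Module.End k (V [⋀^Fin i]→ₗ[k] k) where
  toFun f := f.compLinearMap F
  map_add' _ _ := rfl
  map_smul' _ _ := rfl

/-- The twist `U(ν)` of the space `U` of classes of degree `i` is effective: there is a polynomial `P`
such that `P (F)` vanishes on `U`, and `β / q ^ ν` and `q ^ i / (q ^ ν * β)` are algebraic integers
for all roots `β` of `P` in the algebraic closure of `k`. (If `U` is stable, one may take the minimal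
polynomial of the Frobenius element on `U`: the roots are its eigenvalues.) -/
def EffectiveTwist {k V : Type} [Field k] [AddCommGroup V] [Module k V] (F : V →ₗ[k] V) (q i ν : ℕ)
    (U : Submodule k (V [⋀^Fin i]→ₗ[k] k)) : Prop :=
  ∃ P : k[X], (∀ u ∈ U, aeval (frobeniusOnForms F i) P u = 0) ∧
    ∀ β : AlgebraicClosure k, aeval β P = 0 →
      IsIntegral ℤ (β / (q : AlgebraicClosure k) ^ ν) ∧
      IsIntegral ℤ ((q : AlgebraicClosure k) ^ i / ((q : AlgebraicClosure k) ^ ν * β))

/-- The form `u` on the Tate module is a linear combination, with coefficients in `k`, of classes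
given by correspondences in `𝒜` from the homology of degree `n` of abelian varieties. -/
def IsCombination (𝒜 : Sys) {X : CMAV} {k V : Type} [Field k] [AddCommGroup V] [Module k V]
    (C : Comparison X k V) (n : ℕ) {i : ℕ} (u : V [⋀^Fin i]→ₗ[k] k) : Prop :=
  ∃ (r : ℕ) (c : Fin r → k) (g : Fin r → (av X).H [⋀^Fin i]→ₗ[ℚ] ℚ),
    (∀ a, g a ∈ correspondenceClasses 𝒜 (av X) n i) ∧
      ∀ v : Fin i → X.H1, u (fun l => C.ι (v l)) = ∑ a, c a * ((g a v : ℚ) : k)

/-- **The generalized Tate conjecture for abelian varieties with independent complex
multiplications.** -/
theorem result (K J : Type) [Fintype K] (T : K → CMPair) (b : K → J) (hb : IsIndependent T b)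
    (hT : ∀ j, IsGoodBlock T {k | b k = j}) (𝒜 : Sys)
    (h𝒜 : ∀ (j : J) (B : CMPair) (F : Frame B), 6 < finrank ℚ F.L →
      AllTypes T {k | b k = j} F.L → F.In 𝒜)
    (X : CMAV) (hX : ∀ i, ∃ k, X.factor i = T k) {k V : Type} [Field k] [CharZero k]
    [AddCommGroup V] [Module k V] (C : Comparison X k V) (w : AbsoluteValue ℂ ℝ) (q : ℕ)
    (π : X.H1) (F : V →ₗ[k] V) (hF : IsFrobenius C w q π F) (n ν : ℕ)
    (U : Submodule k (V [⋀^Fin (n + 2 * ν)]→ₗ[k] k)) (hU : EffectiveTwist F q (n + 2 * ν) ν U)
    (u : V [⋀^Fin (n + 2 * ν)]→ₗ[k] k) (hu : u ∈ U) : IsCombination 𝒜 C n u := by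
  obtain ⟨P, h1, h2⟩ := hU
  exact Pool.Agent.N178.GT.final T b hb (fun j => (hT j).imp id Or.symm) 𝒜 h𝒜 X hX C F w q
    hF.ne_zero hF.lt_one π hF.shimuraTaniyama hF.apply_eq n ν P h2 u (h1 u hu)

end Pool.Agent.Results.MP_8abef2_ag.IndependentCMBlocks
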